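import Mathlib

/-!
# MP_2fa24b_lc: Borel edge partitions meeting three line families in the 2-shift

The answer to the question is yes: the edge set of the Schreier graph of the free part of the shift
action of the free group with the generators `a`, `b` has a partition into three Borel sets
`A`, `B`, `C` such that each `⟨a⟩`-line contains an edge of `A`, each `⟨b⟩`-line contains an edge
of `B`, and each alternating line contains an edge of `C`.

Proof. There is a Borel set `P` that meets each orbit of `a` and contains no two points of the form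
`m`, `a m` (local minima of a proper Borel colouring with natural numbers). Let `Z` be the set of
all `m` with `(a b) ^ k m ∈ P` for all integers `k`. Then `Z` does not contain two points of the form
`m`, `b m`: otherwise `b m ∈ P` and `(a b) m = a (b m) ∈ P`. Let `A` consist of the `a`-edges
`{m, a⁻¹ m}` with `m ∈ P`, let `B` consist of the `b`-edges `{m, b m}` with `m ∉ Z`, and let `C`
be the set of all other edges.
-/

namespace Pool.Agent.Results.MP_2fa24b_lc.ThreeLines

/-- The free group on two generators. -/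
abbrev F2 : Type := FreeGroup (Fin 2)

/-- The first generator. -/
def a : F2 := FreeGroup.of 0

/-- The second generator. -/
def b : F2 := FreeGroup.of 1

/-- The shift action of the free group on `2 ^ F2`: `(g · x) (h) = x (g⁻¹ h)`. -/
def shift (g : F2) (x : F2 → Bool) : F2 → Bool := fun h => x (g⁻¹ * h)

/-- The free part `X` of the shift, with the σ-algebra induced by the product σ-algebra of
`2 ^ F2` (this is the Borel σ-algebra, since the free group is countable). -/
def X : Type := {x : F2 → Bool // ∀ g : F2, g ≠ 1 → shift g x ≠ x}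

instance : MeasurableSpace X := Subtype.instMeasurableSpace

theorem shift_mul (g h : F2) (x : F2 → Bool) : shift (g * h) x = shift g (shift h x) := by
  funext k
  simp [shift, mul_assoc]

theorem shift_one (x : F2 → Bool) : shift 1 x = x := by
  funext k
  simp [shift]

/-- The action of the free group on the free part. -/
def act (g : F2) (x : X) : X :=
  ⟨shift g x.1, fun h hh he => x.2 (g⁻¹ * h * g) (by
      intro h1
      apply hh
      have h2 : h = g * (g⁻¹ * h * g) * g⁻¹ := by group
      rw [h2, h1]; group) (by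
      rw [shift_mul, shift_mul, he, ← shift_mul]; simp [shift_one])⟩

/-- The edge relation of the Schreier graph of the action for the generators `a`, `b`. -/
def Edge (x y : X) : Prop := y = act a x ∨ x = act a y ∨ y = act b x ∨ x = act b y

/-- The set `H = ⟨a⟩`. -/
def H : Set F2 := {g | ∃ n : ℤ, g = a ^ n}

/-- The set `V = ⟨b⟩`. -/
def V : Set F2 := {g | ∃ n : ℤ, g = b ^ n}

/-- The elements `w n` with `w 0 = 1`, and `w (n + 1) = a w (n)` for `n` even,
`w (n + 1) = b w (n)` for `n` odd (see `w_zero`, `w_even`, `w_odd`). -/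
def w (n : ℤ) : F2 := if Even n then (b * a) ^ (n / 2) else a * (b * a) ^ (n / 2)

theorem w_zero : w 0 = 1 := by simp [w]

theorem w_even (n : ℤ) (hn : Even n) : w (n + 1) = a * w n := by
  have h1 : ¬ Even (n + 1) := by
    rw [Int.even_add_one]; simpa using hn
  have h2 : (n + 1) / 2 = n / 2 := by
    obtain ⟨k, rfl⟩ := hn; omega
  rw [w, w, if_neg h1, if_pos hn, h2]

theorem w_odd (n : ℤ) (hn : ¬ Even n) : w (n + 1) = b * w n := by
  have h1 : Even (n + 1) := by
    rw [Int.even_add_one]; exact hn
  have h2 : (n + 1) / 2 = n / 2 + 1 := by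
    rw [Int.not_even_iff_odd] at hn
    obtain ⟨k, rfl⟩ := hn; omega
  rw [w, w, if_neg hn, if_pos h1, h2, add_comm (n / 2) 1, zpow_add, zpow_one, mul_assoc]

/-- The set `D = {w n : n ∈ ℤ}`. -/
def D : Set F2 := {g | ∃ n : ℤ, g = w n}

/-- `S · x` contains an edge of the set `E` of edges (a symmetric relation): both endpoints of the
edge lie in `S · x`. -/
def ContainsEdge (S : Set F2) (x : X) (E : Set (X × X)) : Prop :=
  ∃ s ∈ S, ∃ t ∈ S, (act s x, act t x) ∈ E

/-- A partition of the edge set of the Schreier graph into three Borel sets. Sets of edges are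
given by symmetric subsets of `X × X`. -/
structure IsBorelPartition (A B C : Set (X × X)) : Prop where
  measurable_A : MeasurableSet A
  measurable_B : MeasurableSet B
  measurable_C : MeasurableSet C
  symm_A : ∀ x y, (x, y) ∈ A → (y, x) ∈ A
  symm_B : ∀ x y, (x, y) ∈ B → (y, x) ∈ B
  symm_C : ∀ x y, (x, y) ∈ C → (y, x) ∈ C
  disjoint_AB : Disjoint A B
  disjoint_AC : Disjoint A C
  disjoint_BC : Disjoint B C
  union_eq : A ∪ B ∪ C = {p | Edge p.1 p.2}

/-! ### The action -/

theorem act_mul (g h : F2) (x : X) : act (g * h) x = act g (act h x) :=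
  Subtype.ext (shift_mul g h x.1)

theorem act_one (x : X) : act 1 x = x := Subtype.ext (shift_one x.1)

theorem act_ne {g : F2} (hg : g ≠ 1) (x : X) : act g x ≠ x := fun h =>
  x.2 g hg (congrArg Subtype.val h)

theorem act_inj {g h : F2} {x : X} (he : act g x = act h x) : g = h := by
  by_contra hne
  have h1 : h⁻¹ * g ≠ 1 := fun h2 => hne (inv_mul_eq_one.mp h2).symm
  apply act_ne h1 x
  rw [act_mul, he, ← act_mul, inv_mul_cancel, act_one]

theorem measurable_act (g : F2) : Measurable (act g) := by
  apply Measurable.subtype_mk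
  apply measurable_pi_lambda
  intro h
  exact (measurable_pi_apply (g⁻¹ * h)).comp measurable_subtype_coe

theorem measurableSet_graph (g : F2) : MeasurableSet {p : X × X | p.2 = act g p.1} := by
  have h1 : {p : X × X | p.2 = act g p.1}
      = ⋂ h : F2, {p : X × X | p.2.1 h = p.1.1 (g⁻¹ * h)} := by
    ext p
    simp only [Set.mem_ofPred_eq, Set.mem_iInter]
    constructor
    · intro h k
      rw [h]; rfl
    · intro h
      apply Subtype.ext
      funext k
      exact h k
  rw [h1]
  refine MeasurableSet.iInter fun h => ?_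
  apply measurableSet_eq_fun
  · exact (measurable_pi_apply h).comp (measurable_subtype_coe.comp measurable_snd)
  · exact (measurable_pi_apply (g⁻¹ * h)).comp (measurable_subtype_coe.comp measurable_fst)

theorem measurableSet_graph' (g : F2) : MeasurableSet {p : X × X | p.1 = act g p.2} :=
  (measurableSet_graph g).preimage measurable_swap

/-! ### The colouring and the set `P` -/

theorem exists_enum : ∃ e : ℕ → F2, Function.Surjective e := exists_surjective_nat F2

/-- An enumeration of the free group. -/
noncomputable def e : ℕ → F2 := exists_enum.choose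

theorem e_surj : Function.Surjective e := exists_enum.choose_spec

theorem a_ne_one : a ≠ 1 := by decide

theorem exists_diff (x : X) : ∃ n : ℕ, (act a x).1 (e n) ≠ x.1 (e n) := by
  by_contra h
  push Not at h
  apply act_ne a_ne_one x
  apply Subtype.ext
  funext k
  obtain ⟨n, rfl⟩ := e_surj k
  exact h n

open Classical in
/-- The first place where `a x` and `x` differ. -/
noncomputable def N (x : X) : ℕ := Nat.find (exists_diff x)

theorem N_spec (x : X) : (act a x).1 (e (N x)) ≠ x.1 (e (N x)) := by
  classical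
  exact Nat.find_spec (exists_diff x)

theorem measurable_N : Measurable N := by
  classical
  apply measurable_find
  intro k
  have h1 : MeasurableSet {x : X | (act a x).1 (e k) = x.1 (e k)} := by
    apply measurableSet_eq_fun
    · exact (measurable_pi_apply (e k)).comp (measurable_subtype_coe.comp (measurable_act a))
    · exact (measurable_pi_apply (e k)).comp measurable_subtype_coe
  exact h1.compl

/-- The colouring. -/
noncomputable def c (x : X) : ℕ := 2 * N x + (x.1 (e (N x))).toNat

theorem c_ne (x : X) : c x ≠ c (act a x) := by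
  intro h
  unfold c at h
  have h1 := Bool.toNat_le (x.1 (e (N x)))
  have h2 := Bool.toNat_le ((act a x).1 (e (N (act a x))))
  have h3 : N x = N (act a x) := by omega
  have h4 : (x.1 (e (N x))).toNat = ((act a x).1 (e (N (act a x)))).toNat := by omega
  have h5 : x.1 (e (N x)) = (act a x).1 (e (N (act a x))) := by
    revert h4
    cases x.1 (e (N x)) <;> cases (act a x).1 (e (N (act a x))) <;> simp
  rw [← h3] at h5
  exact N_spec x h5.symm

theorem measurable_c : Measurable c := by
  have h1 : Measurable (fun p : ℕ × X => p.2.1 (e p.1)) := by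
    apply measurable_from_prod_countable_right
    intro n
    exact (measurable_pi_apply (e n)).comp measurable_subtype_coe
  have h2 : Measurable (fun x : X => x.1 (e (N x))) :=
    h1.comp (measurable_N.prodMk measurable_id)
  exact (measurable_N.const_mul 2).add ((measurable_of_countable Bool.toNat).comp h2)

/-- The set `P` of the local minima of the colouring along the orbits of `a`. -/
def P : Set X := {x | c x < c (act a x) ∧ c x < c (act a⁻¹ x)}

theorem measurableSet_P : MeasurableSet P :=
  (measurableSet_lt measurable_c (measurable_c.comp (measurable_act a))).inter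
    (measurableSet_lt measurable_c (measurable_c.comp (measurable_act a⁻¹)))

theorem P_indep (x : X) (h : x ∈ P) : act a x ∉ P := by
  intro h1
  have h2 := h1.2
  rw [← act_mul, inv_mul_cancel, act_one] at h2
  exact absurd h.1 (not_lt.mpr h2.le)

theorem P_hit (x : X) : ∃ k : ℤ, act (a ^ k) x ∈ P := by
  obtain ⟨k, hk⟩ : ∃ k : ℤ, ∀ l : ℤ, c (act (a ^ k) x) ≤ c (act (a ^ l) x) := by
    have h1 : (Set.range fun k : ℤ => c (act (a ^ k) x)).Nonempty := ⟨_, 0, rfl⟩
    obtain ⟨k, hk⟩ := Nat.sInf_mem h1
    refine ⟨k, fun l => ?_⟩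
    have h2 : c (act (a ^ k) x) = sInf (Set.range fun k : ℤ => c (act (a ^ k) x)) := hk
    rw [h2]
    exact Nat.sInf_le ⟨l, rfl⟩
  refine ⟨k, lt_of_le_of_ne ?_ (c_ne _), lt_of_le_of_ne ?_ ?_⟩
  · have := hk (1 + k)
    rwa [zpow_add, zpow_one, act_mul] at this
  · have := hk (-1 + k)
    rwa [zpow_add, zpow_neg_one, act_mul] at this
  · intro h
    apply c_ne (act a⁻¹ (act (a ^ k) x))
    rw [← h]
    congr 1
    rw [← act_mul, ← act_mul]
    simp

/-- The set `Z` of all `m` with `(a b) ^ k m ∈ P` for all `k`. -/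
def Z : Set X := {m | ∀ k : ℤ, act ((a * b) ^ k) m ∈ P}

theorem measurableSet_Z : MeasurableSet Z := by
  have : Z = ⋂ k : ℤ, act ((a * b) ^ k) ⁻¹' P := by
    ext m; simp [Z]
  rw [this]
  exact MeasurableSet.iInter fun k => measurable_act _ measurableSet_P

theorem Z_indep (m : X) (h : m ∈ Z) : act b m ∉ Z := by
  intro h1
  have h2 : act b m ∈ P := by
    have := h1 0
    rwa [zpow_zero, act_one] at this
  have h3 : act (a * b) m ∈ P := by
    have := h 1
    rwa [zpow_one] at this
  rw [act_mul] at h3
  exact P_indep _ h2 h3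

/-! ### The partition -/

/-- The `a`-edges `{m, a⁻¹ m}` with `m ∈ P`. -/
def EA : Set (X × X) := {p | (p.2 = act a p.1 ∧ p.2 ∈ P) ∨ (p.1 = act a p.2 ∧ p.1 ∈ P)}

/-- The `b`-edges `{m, b m}` with `m ∉ Z`. -/
def EB : Set (X × X) := {p | (p.2 = act b p.1 ∧ p.1 ∉ Z) ∨ (p.1 = act b p.2 ∧ p.2 ∉ Z)}

/-- The other edges. -/
def EC : Set (X × X) := {p | (p.2 = act a p.1 ∧ p.2 ∉ P) ∨ (p.1 = act a p.2 ∧ p.1 ∉ P) ∨
  (p.2 = act b p.1 ∧ p.1 ∈ Z) ∨ (p.1 = act b p.2 ∧ p.2 ∈ Z)}

theorem ne1 (x y : X) (h1 : y = act a x) (h2 : x = act a y) : False := by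
  rw [h1, ← act_mul] at h2
  exact act_ne (g := a * a) (by decide) x h2.symm

theorem ne2 (x y : X) (h1 : y = act b x) (h2 : x = act b y) : False := by
  rw [h1, ← act_mul] at h2
  exact act_ne (g := b * b) (by decide) x h2.symm

theorem ne3 (x y : X) (h1 : y = act a x) (h2 : y = act b x) : False := by
  rw [h1] at h2
  exact absurd (act_inj h2) (by decide)

theorem ne4 (x y : X) (h1 : y = act a x) (h2 : x = act b y) : False := by
  rw [h1, ← act_mul] at h2
  exact act_ne (g := b * a) (by decide) x h2.symm

theorem isBorelPartition : IsBorelPartition EA EB EC where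
  measurable_A := by
    refine MeasurableSet.union ?_ ?_
    · exact (measurableSet_graph a).inter (measurable_snd measurableSet_P)
    · exact (measurableSet_graph' a).inter (measurable_fst measurableSet_P)
  measurable_B := by
    refine MeasurableSet.union ?_ ?_
    · exact (measurableSet_graph b).inter (measurable_fst measurableSet_Z.compl)
    · exact (measurableSet_graph' b).inter (measurable_snd measurableSet_Z.compl)
  measurable_C := by
    refine MeasurableSet.union ?_ (MeasurableSet.union ?_ (MeasurableSet.union ?_ ?_))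
    · exact (measurableSet_graph a).inter (measurable_snd measurableSet_P.compl)
    · exact (measurableSet_graph' a).inter (measurable_fst measurableSet_P.compl)
    · exact (measurableSet_graph b).inter (measurable_fst measurableSet_Z)
    · exact (measurableSet_graph' b).inter (measurable_snd measurableSet_Z)
  symm_A := by
    rintro x y (h | h)
    · exact Or.inr h
    · exact Or.inl h
  symm_B := by
    rintro x y (h | h)
    · exact Or.inr h
    · exact Or.inl h
  symm_C := by
    rintro x y (h | h | h | h)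
    · exact Or.inr (Or.inl h)
    · exact Or.inl h
    · exact Or.inr (Or.inr (Or.inr h))
    · exact Or.inr (Or.inr (Or.inl h))
  disjoint_AB := by
    rw [Set.disjoint_left]
    rintro ⟨x, y⟩ (⟨h1, -⟩ | ⟨h1, -⟩) (⟨h2, -⟩ | ⟨h2, -⟩)
    · exact ne3 x y h1 h2
    · exact ne4 x y h1 h2
    · exact ne4 y x h1 h2
    · exact ne3 y x h1 h2
  disjoint_AC := by
    rw [Set.disjoint_left]
    rintro ⟨x, y⟩ (⟨h1, h1'⟩ | ⟨h1, h1'⟩) (⟨h2, h2'⟩ | ⟨h2, h2'⟩ | ⟨h2, -⟩ | ⟨h2, -⟩)
    · exact h2' h1'
    · exact ne1 x y h1 h2
    · exact ne3 x y h1 h2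
    · exact ne4 x y h1 h2
    · exact ne1 x y h2 h1
    · exact h2' h1'
    · exact ne4 y x h1 h2
    · exact ne3 y x h1 h2
  disjoint_BC := by
    rw [Set.disjoint_left]
    rintro ⟨x, y⟩ (⟨h1, h1'⟩ | ⟨h1, h1'⟩) (⟨h2, h2'⟩ | ⟨h2, h2'⟩ | ⟨h2, h2'⟩ | ⟨h2, h2'⟩)
    · exact ne3 x y h2 h1
    · exact ne4 y x h2 h1
    · exact h1' h2'
    · exact ne2 x y h1 h2
    · exact ne4 x y h2 h1
    · exact ne3 y x h2 h1
    · exact ne2 x y h2 h1
    · exact h1' h2'
  union_eq := by
    ext ⟨x, y⟩
    constructor
    · rintro (((⟨h, -⟩ | ⟨h, -⟩) | (⟨h, -⟩ | ⟨h, -⟩)) | (⟨h, -⟩ | ⟨h, -⟩ | ⟨h, -⟩ | ⟨h, -⟩))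
      · exact Or.inl h
      · exact Or.inr (Or.inl h)
      · exact Or.inr (Or.inr (Or.inl h))
      · exact Or.inr (Or.inr (Or.inr h))
      · exact Or.inl h
      · exact Or.inr (Or.inl h)
      · exact Or.inr (Or.inr (Or.inl h))
      · exact Or.inr (Or.inr (Or.inr h))
    · rintro (h | h | h | h)
      · by_cases hp : y ∈ P
        · exact Or.inl (Or.inl (Or.inl ⟨h, hp⟩))
        · exact Or.inr (Or.inl ⟨h, hp⟩)
      · by_cases hp : x ∈ P
        · exact Or.inl (Or.inl (Or.inr ⟨h, hp⟩))
        · exact Or.inr (Or.inr (Or.inl ⟨h, hp⟩))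
      · by_cases hp : x ∈ Z
        · exact Or.inr (Or.inr (Or.inr (Or.inl ⟨h, hp⟩)))
        · exact Or.inl (Or.inr (Or.inl ⟨h, hp⟩))
      · by_cases hp : y ∈ Z
        · exact Or.inr (Or.inr (Or.inr (Or.inr ⟨h, hp⟩)))
        · exact Or.inl (Or.inr (Or.inr ⟨h, hp⟩))

theorem w_two_mul_add_one (k : ℤ) : w (2 * k + 1) = (a * b) ^ k * a := by
  have h1 : ¬ Even (2 * k + 1) := by simp
  have h2 : (2 * k + 1) / 2 = k := by omega
  rw [w, if_neg h1, h2]
  have h3 : b * a = a⁻¹ * (a * b) * (a⁻¹)⁻¹ := by group
  rw [h3, conj_zpow]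
  group

/-- **Borel edge partitions meeting three line families.** The edge set of the Schreier graph of the
free part of the shift action of the free group of rank two on `2 ^ F2` has a partition into three
Borel sets `A`, `B`, `C` such that for each point `x` of the free part the line `H · x` contains
an edge of `A`, the line `V · x` contains an edge of `B`, and the alternating line `D · x` contains
an edge of `C`. -/
theorem result : ∃ A B C : Set (X × X), IsBorelPartition A B C ∧
    ∀ x : X, ContainsEdge H x A ∧ ContainsEdge V x B ∧ ContainsEdge D x C := by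
  refine ⟨EA, EB, EC, isBorelPartition, fun x => ⟨?_, ?_, ?_⟩⟩
  · obtain ⟨k, hk⟩ := P_hit x
    refine ⟨a ^ (-1 + k), ⟨_, rfl⟩, a ^ k, ⟨_, rfl⟩, Or.inl ⟨?_, hk⟩⟩
    show act (a ^ k) x = act a (act (a ^ (-1 + k)) x)
    rw [← act_mul]
    congr 1
    rw [zpow_add]
    simp
  · by_cases hx : x ∈ Z
    · refine ⟨b ^ (1 : ℤ), ⟨_, rfl⟩, b ^ (2 : ℤ), ⟨_, rfl⟩, Or.inl ⟨?_, ?_⟩⟩
      · show act (b ^ (2 : ℤ)) x = act b (act (b ^ (1 : ℤ)) x)
        rw [← act_mul, ← zpow_one_add]
        rfl
      · rw [zpow_one]
        exact Z_indep x hx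
    · refine ⟨b ^ (0 : ℤ), ⟨_, rfl⟩, b ^ (1 : ℤ), ⟨_, rfl⟩, Or.inl ⟨?_, ?_⟩⟩
      · show act (b ^ (1 : ℤ)) x = act b (act (b ^ (0 : ℤ)) x)
        rw [zpow_zero, act_one, zpow_one]
      · show act (b ^ (0 : ℤ)) x ∉ Z
        rw [zpow_zero, act_one]
        exact hx
  · by_cases hx : act a x ∈ Z
    · refine ⟨w 1, ⟨_, rfl⟩, w 2, ⟨_, rfl⟩, Or.inr (Or.inr (Or.inl ⟨?_, ?_⟩))⟩
      · show act (w 2) x = act b (act (w 1) x)
        rw [← act_mul]
        exact congrArg (fun g => act g x) (w_odd 1 (by decide))
      · have : w 1 = a := by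
          have := w_even 0 (by decide)
          rw [w_zero, mul_one] at this
          exact this
        rw [this]
        exact hx
    · have h1 : ∃ k : ℤ, act ((a * b) ^ k) (act a x) ∉ P := by
        by_contra h
        push Not at h
        exact hx h
      obtain ⟨k, hk⟩ := h1
      refine ⟨w (2 * k), ⟨_, rfl⟩, w (2 * k + 1), ⟨_, rfl⟩, Or.inl ⟨?_, ?_⟩⟩
      · show act (w (2 * k + 1)) x = act a (act (w (2 * k)) x)
        rw [← act_mul]
        congr 1
        exact w_even (2 * k) (by simp)
      · show act (w (2 * k + 1)) x ∉ P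
        rw [w_two_mul_add_one, act_mul]
        exact hk

end Pool.Agent.Results.MP_2fa24b_lc.ThreeLines
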